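import Pool.Agent.Helper46.SP.All

open Pool.Agent.Helper46.SP

/-- There is a model `(M, E)` of ZF + DC + SP(ℝ) + ¬ WO(ℝ): it satisfies all axioms of ZF (with
the separation and replacement schemas for all first-order formulas with parameters), dependent
choices, and the statement that every equivalence relation on the reals has a transversal, but
its reals cannot be well-ordered. -/
theorem Pool.Agent.Results.MP_913f70_lc.SplittingWithoutWO.result :
    ∃ (M : Type) (E : M → M → Prop), IsZF E ∧ DC E ∧ SPR E ∧ ¬ WOR E :=
  goal
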